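import Pool.Agent.Helper27.GP.GelB

/-! Gelfond criterion (bounded degree). -/

namespace Helper27.GP

open Polynomial Filter

/-- a small power of an irreducible polynomial -/
def Good (θ : ℂ) (δ : ℕ) (M ε : ℝ) (Q : ℤ[X]) (k : ℕ) (c : ℤ) : Prop :=
  Irreducible Q ∧ Q.natDegree ≠ 0 ∧ c ≠ 0 ∧ k ≤ δ ∧ (C c * Q ^ k).natDegree ≤ δ ∧
    MM (C c * Q ^ k) ≤ M ∧ ‖aeval θ (C c * Q ^ k)‖ ≤ ε

theorem MM_pow_le {B : ℤ[X]} (hB : B ≠ 0) {n δ : ℕ} (h : n ≤ δ) : MM B ^ n ≤ MM B ^ δ :=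
  pow_le_pow_right₀ (one_le_MM hB) h

theorem MM_nonneg (B : ℤ[X]) : 0 ≤ MM B := mahlerMeasure_nonneg _

theorem MM_le_of_dvd {B A : ℤ[X]} (hA : A ≠ 0) (h : B ∣ A) : MM B ≤ MM A := by
  obtain ⟨C, rfl⟩ := h
  have hC : C ≠ 0 := right_ne_zero_of_mul hA
  rw [MM_mul]
  exact le_mul_of_one_le_right (MM_nonneg B) (one_le_MM hC)

theorem res_factor (A : ℤ[X]) (hA : A ≠ 0) (δ : ℕ) (hδ : A.natDegree ≤ δ) (θ : ℂ) (R : ℝ)
    (hR1 : 1 ≤ R) (hR : ‖θ‖ ≤ R) (H : ℝ) (hH : ∀ i, |((A.coeff i : ℤ) : ℝ)| ≤ H)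
    (B D : ℤ[X]) (hBD : A = B * D) (hcop : Cop B D) :
    1 ≤ KK δ R * ((δ + 1) * H) ^ δ * max ‖aeval θ B‖ ‖aeval θ D‖ := by
  have hB : B ≠ 0 := left_ne_zero_of_mul (hBD ▸ hA)
  have hD : D ≠ 0 := right_ne_zero_of_mul (hBD ▸ hA)
  have hdeg : B.natDegree + D.natDegree ≤ δ := by
    rw [← natDegree_mul hB hD, ← hBD]; exact hδ
  have h1 := res_ineq B D hB hD hcop δ hdeg θ R hR1 hR
  have h2 : MM B ^ D.natDegree * MM D ^ B.natDegree ≤ ((δ + 1) * H) ^ δ := by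
    calc MM B ^ D.natDegree * MM D ^ B.natDegree ≤ MM B ^ δ * MM D ^ δ :=
          mul_le_mul (MM_pow_le hB (by omega)) (MM_pow_le hD (by omega))
            (pow_nonneg (MM_nonneg _) _) (pow_nonneg (MM_nonneg _) _)
      _ = MM A ^ δ := by rw [← mul_pow, ← MM_mul, ← hBD]
      _ ≤ ((δ + 1) * H) ^ δ := pow_le_pow_left₀ (MM_nonneg _) (MM_le A δ hδ H hH) δ
  refine h1.trans ?_
  have hK := one_le_KK δ R hR1
  refine mul_le_mul_of_nonneg_right ?_ (le_max_of_le_left (norm_nonneg _))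
  exact mul_le_mul_of_nonneg_left h2 (by linarith)

theorem res_two (B D : ℤ[X]) (hB : B ≠ 0) (hD : D ≠ 0) (δ : ℕ) (hdB : B.natDegree ≤ δ)
    (hdD : D.natDegree ≤ δ) (θ : ℂ) (R : ℝ) (hR1 : 1 ≤ R) (hR : ‖θ‖ ≤ R) (M1 M2 ε : ℝ)
    (hM1 : MM B ≤ M1) (hM2 : MM D ≤ M2) (h1 : ‖aeval θ B‖ ≤ ε) (h2 : ‖aeval θ D‖ ≤ ε)
    (hcop : Cop B D) : 1 ≤ KK (2 * δ) R * (M1 ^ δ * M2 ^ δ) * ε := by
  have h3 := res_ineq B D hB hD hcop (2 * δ) (by omega) θ R hR1 hR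
  have hM10 : 0 ≤ M1 := (MM_nonneg B).trans hM1
  have h4 : MM B ^ D.natDegree * MM D ^ B.natDegree ≤ M1 ^ δ * M2 ^ δ := by
    calc MM B ^ D.natDegree * MM D ^ B.natDegree ≤ MM B ^ δ * MM D ^ δ :=
          mul_le_mul (MM_pow_le hB hdD) (MM_pow_le hD hdB)
            (pow_nonneg (MM_nonneg _) _) (pow_nonneg (MM_nonneg _) _)
      _ ≤ M1 ^ δ * M2 ^ δ := mul_le_mul (pow_le_pow_left₀ (MM_nonneg _) hM1 δ)
            (pow_le_pow_left₀ (MM_nonneg _) hM2 δ) (pow_nonneg (MM_nonneg _) _)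
            (pow_nonneg hM10 _)
  have hK := one_le_KK (2 * δ) R hR1
  have hK0 : 0 ≤ KK (2 * δ) R := by linarith
  refine h3.trans ?_
  refine mul_le_mul (mul_le_mul_of_nonneg_left h4 hK0) (max_le h1 h2)
    (le_max_of_le_left (norm_nonneg _)) ?_
  refine mul_nonneg hK0 (le_trans ?_ h4)
  exact mul_nonneg (pow_nonneg (MM_nonneg _) _) (pow_nonneg (MM_nonneg _) _)

theorem exists_good (A : ℤ[X]) (hA : A ≠ 0) (δ : ℕ) (hδ : A.natDegree ≤ δ) (θ : ℂ) (R : ℝ)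
    (hR1 : 1 ≤ R) (hR : ‖θ‖ ≤ R) (H : ℝ) (hH : ∀ i, |((A.coeff i : ℤ) : ℝ)| ≤ H) (e η : ℝ)
    (he0 : 0 < e) (he1 : e ≤ 1) (he : e * (KK δ R * ((δ + 1) * H) ^ δ) ≤ 1)
    (hη : ‖aeval θ A‖ ≤ η) (hη2 : η < e ^ 3) :
    ∃ Q k c, Good θ δ ((δ + 1) * H) (η / e) Q k c := by
  have hK := one_le_KK δ R hR1
  obtain ⟨B, hBA, hBs, hind, hBd⟩ := exists_unitary A hA θ e η he0 he1 hη hη2 (by
    intro B D hBD hcop
    have h1 := res_factor A hA δ hδ θ R hR1 hR H hH B D hBD hcop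
    have hm : 0 ≤ max ‖aeval θ B‖ ‖aeval θ D‖ := le_max_of_le_left (norm_nonneg _)
    calc e = e * 1 := by ring
      _ ≤ e * (KK δ R * ((δ + 1) * H) ^ δ * max ‖aeval θ B‖ ‖aeval θ D‖) :=
          mul_le_mul_of_nonneg_left h1 he0.le
      _ = e * (KK δ R * ((δ + 1) * H) ^ δ) * max ‖aeval θ B‖ ‖aeval θ D‖ := by ring
      _ ≤ 1 * max ‖aeval θ B‖ ‖aeval θ D‖ := mul_le_mul_of_nonneg_right he hm
      _ = _ := one_mul _)
  obtain ⟨Q, k, c, hQ, hQd, hk, hc, hB⟩ := exists_irr_pow B hBd hind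
  have hBdeg : B.natDegree ≤ δ := (natDegree_le_of_dvd hBA hA).trans hδ
  have hkd : k ≤ δ := by
    have h1 : B.natDegree = k * Q.natDegree := by
      rw [hB, natDegree_C_mul hc, natDegree_pow]
    have h2 : 1 ≤ Q.natDegree := Nat.one_le_iff_ne_zero.2 hQd
    calc k = k * 1 := by ring
      _ ≤ k * Q.natDegree := Nat.mul_le_mul_left _ h2
      _ ≤ δ := by rw [← h1]; exact hBdeg
  refine ⟨Q, k, c, hQ, hQd, hc, hkd, ?_, ?_, ?_⟩
  · rw [← hB]; exact hBdeg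
  · rw [← hB]
    exact (MM_le_of_dvd hA hBA).trans (MM_le A δ hδ H hH)
  · rw [← hB]; exact hBs

theorem norm_aeval_unit {u : ℤ[X]} (hu : IsUnit u) (θ : ℂ) : ‖aeval θ u‖ = 1 := by
  obtain ⟨r, hr, rfl⟩ := Polynomial.isUnit_iff.1 hu
  rw [aeval_C, algebraMap_int_eq, eq_intCast, Complex.norm_intCast]
  rcases Int.isUnit_iff.1 hr with rfl | rfl <;> simp

theorem norm_aeval_assoc {P Q : ℤ[X]} (h : Associated P Q) (θ : ℂ) :
    ‖aeval θ P‖ = ‖aeval θ Q‖ := by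
  obtain ⟨u, rfl⟩ := h
  rw [map_mul, norm_mul, norm_aeval_unit u.isUnit, mul_one]

theorem good_lower {θ : ℂ} {δ : ℕ} {M ε : ℝ} {Q : ℤ[X]} {k : ℕ} {c : ℤ}
    (h : Good θ δ M ε Q k c) : min 1 ‖aeval θ Q‖ ^ δ ≤ ε := by
  obtain ⟨-, -, hc, hk, -, -, hε⟩ := h
  refine le_trans ?_ hε
  rw [map_mul, map_pow, norm_mul, norm_pow, aeval_C, algebraMap_int_eq, eq_intCast,
    Complex.norm_intCast]
  have h1 : (1 : ℝ) ≤ |(c : ℝ)| := by exact_mod_cast Int.one_le_abs hc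
  have h0 : 0 ≤ min 1 ‖aeval θ Q‖ := le_min zero_le_one (norm_nonneg _)
  calc min 1 ‖aeval θ Q‖ ^ δ ≤ min 1 ‖aeval θ Q‖ ^ k :=
        pow_le_pow_of_le_one h0 (min_le_left _ _) hk
    _ ≤ ‖aeval θ Q‖ ^ k := pow_le_pow_left₀ h0 (min_le_right _ _) k
    _ = 1 * ‖aeval θ Q‖ ^ k := (one_mul _).symm
    _ ≤ |(c : ℝ)| * ‖aeval θ Q‖ ^ k :=
        mul_le_mul_of_nonneg_right h1 (pow_nonneg (norm_nonneg _) _)

theorem good_ne_zero {θ : ℂ} {δ : ℕ} {M ε : ℝ} {Q : ℤ[X]} {k : ℕ} {c : ℤ}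
    (h : Good θ δ M ε Q k c) : C c * Q ^ k ≠ 0 :=
  mul_ne_zero (C_ne_zero.2 h.2.2.1) (pow_ne_zero _ h.1.ne_zero)

theorem good_assoc {θ : ℂ} {δ : ℕ} {M1 M2 ε1 ε2 ε R : ℝ} {Q1 Q2 : ℤ[X]} {k1 k2 : ℕ} {c1 c2 : ℤ}
    (h1 : Good θ δ M1 ε1 Q1 k1 c1) (h2 : Good θ δ M2 ε2 Q2 k2 c2) (hε1 : ε1 ≤ ε) (hε2 : ε2 ≤ ε)
    (hR1 : 1 ≤ R) (hR : ‖θ‖ ≤ R) (hs : KK (2 * δ) R * (M1 ^ δ * M2 ^ δ) * ε < 1) :
    Associated Q1 Q2 := by
  have hn1 := good_ne_zero h1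
  have hn2 := good_ne_zero h2
  obtain ⟨hQ1, hd1, hc1, hk1, hde1, hM1, he1⟩ := h1
  obtain ⟨hQ2, hd2, hc2, hk2, hde2, hM2, he2⟩ := h2
  apply assoc_of_not_cop hQ1 hd1 hQ2 hd2 hc1 hc2 (k := k1) (k' := k2)
  intro hcop
  have := res_two _ _ hn1 hn2 δ hde1 hde2 θ R hR1 hR M1 M2 ε hM1 hM2 (he1.trans hε1)
    (he2.trans hε2) hcop
  linarith

/-- **Gelfond criterion**, bounded degree. -/
theorem gelfond_criterion (θ : ℂ) (δ : ℕ) (σ Γ : ℝ) (hσ : 0 ≤ σ) (hΓ : 10 * δ * σ + 1 ≤ Γ)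
    (A : ℕ → ℤ[X]) (N0 : ℕ)
    (h : ∀ N, N0 ≤ N → A N ≠ 0 ∧ (A N).natDegree ≤ δ ∧
      (∀ i, |((A N).coeff i : ℝ)| ≤ Real.exp (σ * N)) ∧
      ‖aeval θ (A N)‖ ≤ Real.exp (-(Γ * N))) : IsAlgebraic ℚ θ := by
  set R := max 1 ‖θ‖ with hRdef
  have hR1 : 1 ≤ R := le_max_left _ _
  have hR : ‖θ‖ ≤ R := le_max_right _ _
  have hδ0 : (0 : ℝ) ≤ δ := Nat.cast_nonneg _
  have hδσ : 0 ≤ δ * σ := mul_nonneg hδ0 hσ
  set K0 : ℝ := KK δ R * (δ + 1) ^ δ with hK0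
  have hK01 : 1 ≤ K0 := one_le_mul_of_one_le_of_one_le (one_le_KK δ R hR1)
    (one_le_pow₀ (by linarith))
  have hK0pos : 0 < K0 := by linarith
  -- the sequence e
  set e : ℕ → ℝ := fun N => Real.exp (-(δ * σ * N)) / K0 with he
  have he0 : ∀ N, 0 < e N := fun N => by positivity
  have he1 : ∀ N, e N ≤ 1 := fun N => by
    rw [he]
    simp only
    rw [div_le_one hK0pos]
    refine le_trans ?_ hK01
    rw [Real.exp_le_one_iff]
    have : 0 ≤ δ * σ * N := mul_nonneg hδσ (Nat.cast_nonneg _)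
    linarith
  -- the bound of the sequence of small values
  have hquot : ∀ N : ℕ, Real.exp (-(Γ * N)) / e N ≤ K0 * Real.exp (-((2 * (δ * σ) + 1) * N)) := by
    intro N
    rw [he]
    simp only
    rw [div_div_eq_mul_div, mul_comm (Real.exp _) K0, mul_div_assoc, ← Real.exp_sub]
    refine mul_le_mul_of_nonneg_left (Real.exp_le_exp.2 ?_) hK0pos.le
    have hN : (0 : ℝ) ≤ N := Nat.cast_nonneg _
    nlinarith [mul_nonneg hδσ hN, mul_le_mul_of_nonneg_right hΓ hN]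
  -- exponential decay
  have hlim : Tendsto (fun N : ℕ => Real.exp (-(N : ℝ))) atTop (nhds 0) :=
    Real.tendsto_exp_neg_atTop_nhds_zero.comp tendsto_natCast_atTop_atTop
  -- first threshold
  have hev1 : ∀ᶠ N : ℕ in atTop, Real.exp (-(N : ℝ)) < 1 / K0 ^ 3 :=
    hlim.eventually (gt_mem_nhds (by positivity))
  set K1 : ℝ := KK (2 * δ) R * ((δ + 1) ^ δ * ((δ + 1) ^ δ * Real.exp (δ * σ))) * K0 with hK1
  have hK1pos : 0 < K1 := by
    have := one_le_KK (2 * δ) R hR1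
    have h2 : 0 < KK (2 * δ) R := by linarith
    positivity
  have hev2 : ∀ᶠ N : ℕ in atTop, Real.exp (-(N : ℝ)) < 1 / K1 :=
    hlim.eventually (gt_mem_nhds (by positivity))
  obtain ⟨N1, hN1⟩ := eventually_atTop.1 (hev1.and hev2)
  set N2 := max N0 N1 with hN2
  -- the good polynomials
  have hgood : ∀ N : ℕ, N2 ≤ N → ∃ Q k c,
      Good θ δ ((δ + 1) * Real.exp (σ * N)) (K0 * Real.exp (-((2 * (δ * σ) + 1) * N))) Q k c := by
    intro N hN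
    obtain ⟨hA0, hAd, hAH, hAs⟩ := h N ((le_max_left _ _).trans hN)
    have hNN : (0 : ℝ) ≤ N := Nat.cast_nonneg _
    obtain ⟨Q, k, c, hQ⟩ := exists_good (A N) hA0 δ hAd θ R hR1 hR (Real.exp (σ * N)) hAH (e N)
      (Real.exp (-(Γ * N))) (he0 N) (he1 N) (by
        rw [he]
        simp only
        have h1 : (((δ : ℝ) + 1) * Real.exp (σ * N)) ^ δ
            = (δ + 1) ^ δ * Real.exp (δ * σ * N) := by
          rw [mul_pow, ← Real.exp_nat_mul]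
          ring_nf
        rw [h1]
        have h2 : Real.exp (-(δ * σ * N)) * Real.exp (δ * σ * N) = 1 := by
          rw [← Real.exp_add]; simp
        rw [show Real.exp (-(δ * σ * N)) / K0 * (KK δ R * ((δ + 1) ^ δ * Real.exp (δ * σ * N)))
          = (Real.exp (-(δ * σ * N)) * Real.exp (δ * σ * N)) * (KK δ R * (δ + 1) ^ δ) / K0 by ring,
          h2, ← hK0, one_mul, div_self hK0pos.ne']) hAs (by
        rw [he]
        simp only
        rw [div_pow, lt_div_iff₀ (by positivity), ← Real.exp_nat_mul]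
        have h3 := (hN1 N ((le_max_right _ _).trans hN)).1
        rw [lt_div_iff₀ (by positivity)] at h3
        have h4 : Real.exp (-(Γ * N)) ≤
            Real.exp (((3 : ℕ) : ℝ) * (-(δ * σ * N))) * Real.exp (-(N : ℝ)) := by
          rw [← Real.exp_add]
          apply Real.exp_le_exp.2
          push_cast
          nlinarith [mul_nonneg hδσ hNN, mul_le_mul_of_nonneg_right hΓ hNN]
        calc Real.exp (-(Γ * N)) * K0 ^ 3
            ≤ Real.exp (((3 : ℕ) : ℝ) * (-(δ * σ * N))) * Real.exp (-(N : ℝ)) * K0 ^ 3 :=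
              mul_le_mul_of_nonneg_right h4 (by positivity)
          _ = Real.exp (((3 : ℕ) : ℝ) * (-(δ * σ * N))) * (Real.exp (-(N : ℝ)) * K0 ^ 3) := by ring
          _ < Real.exp (((3 : ℕ) : ℝ) * (-(δ * σ * N))) * 1 :=
              mul_lt_mul_of_pos_left h3 (Real.exp_pos _)
          _ = _ := mul_one _)
    refine ⟨Q, k, c, ?_⟩
    obtain ⟨a1, a2, a3, a4, a5, a6, a7⟩ := hQ
    exact ⟨a1, a2, a3, a4, a5, a6, a7.trans (hquot N)⟩
  choose! Q k c hQ using hgood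
  have hstep : ∀ N, N2 ≤ N → Associated (Q N) (Q (N + 1)) := by
    intro N hN
    have hNN : (0 : ℝ) ≤ N := Nat.cast_nonneg _
    refine good_assoc (R := R) (ε := K0 * Real.exp (-((2 * (δ * σ) + 1) * N))) (hQ N hN)
      (hQ (N + 1) (by omega)) le_rfl ?_ hR1 hR ?_
    · refine mul_le_mul_of_nonneg_left (Real.exp_le_exp.2 ?_) hK0pos.le
      push_cast
      nlinarith
    · have h3 := (hN1 N ((le_max_right _ _).trans hN)).2
      rw [lt_div_iff₀ hK1pos] at h3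
      refine lt_of_eq_of_lt ?_ h3
      have h4 : (((δ : ℝ) + 1) * Real.exp (σ * N)) ^ δ
            = (δ + 1) ^ δ * Real.exp (δ * σ * N) := by
        rw [mul_pow, ← Real.exp_nat_mul]
        ring_nf
      have h5 : (((δ : ℝ) + 1) * Real.exp (σ * ((N + 1 : ℕ) : ℝ))) ^ δ
            = (δ + 1) ^ δ * (Real.exp (δ * σ) * Real.exp (δ * σ * N)) := by
        rw [mul_pow, ← Real.exp_nat_mul, ← Real.exp_add]
        push_cast
        ring_nf
      have h6 : Real.exp (-((2 * (δ * σ) + 1) * N)) * (Real.exp (δ * σ * N) *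
          Real.exp (δ * σ * N)) = Real.exp (-(N : ℝ)) := by
        rw [← Real.exp_add, ← Real.exp_add]
        ring_nf
      rw [h4, h5, ← h6, hK1]
      ring
  have hall : ∀ j, Associated (Q N2) (Q (N2 + j)) := by
    intro j
    induction j with
    | zero => exact Associated.refl _
    | succ j ih => exact ih.trans (hstep (N2 + j) (by omega))
  -- the common value
  have hval : aeval θ (Q N2) = 0 := by
    by_contra hne
    have hpos : 0 < min 1 ‖aeval θ (Q N2)‖ ^ δ :=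
      pow_pos (lt_min one_pos (norm_pos_iff.2 hne)) δ
    have hev3 : ∀ᶠ N : ℕ in atTop,
        Real.exp (-(N : ℝ)) < min 1 ‖aeval θ (Q N2)‖ ^ δ / K0 :=
      hlim.eventually (gt_mem_nhds (by positivity))
    obtain ⟨N3, hN3⟩ := eventually_atTop.1 hev3
    have h1 := hN3 (N2 + N3) (by omega)
    have h2 := good_lower (hQ (N2 + N3) (by omega))
    rw [← norm_aeval_assoc (hall N3) θ] at h2
    rw [lt_div_iff₀ hK0pos] at h1
    have h3 : Real.exp (-((2 * (δ * σ) + 1) * ((N2 + N3 : ℕ) : ℝ))) ≤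
        Real.exp (-((N2 + N3 : ℕ) : ℝ)) := by
      apply Real.exp_le_exp.2
      have hNN : (0 : ℝ) ≤ ((N2 + N3 : ℕ) : ℝ) := Nat.cast_nonneg _
      nlinarith [mul_nonneg hδσ hNN]
    have h4 := mul_le_mul_of_nonneg_left h3 hK0pos.le
    linarith
  have hQN2 := (hQ N2 le_rfl).1.ne_zero
  refine ⟨(Q N2).map (Int.castRingHom ℚ), ?_, ?_⟩
  · rwa [Ne, Polynomial.map_eq_zero_iff (Int.castRingHom ℚ).injective_int]
  · have : aeval θ ((Q N2).map (algebraMap ℤ ℚ)) = aeval θ (Q N2) :=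
      aeval_map_algebraMap ℚ θ (Q N2)
    rw [← hval, ← this]
    rfl

end Helper27.GP
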