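import Pool.Agent.Helper27.GP.Res

/-! Gelfond criterion, part A: Mahler measure and the resultant inequality for integer
polynomials. -/

namespace Helper27.GP

open Polynomial

/-- the Mahler measure of an integer polynomial -/
noncomputable def MM (f : ℤ[X]) : ℝ := (f.map (Int.castRingHom ℂ)).mahlerMeasure

theorem inj_castC : Function.Injective (Int.castRingHom ℂ) := (Int.castRingHom ℂ).injective_int

theorem MM_mul (f g : ℤ[X]) : MM (f * g) = MM f * MM g := by
  rw [MM, Polynomial.map_mul, mahlerMeasure_mul]; rfl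

theorem one_le_MM {f : ℤ[X]} (hf : f ≠ 0) : 1 ≤ MM f := by
  apply one_le_mahlerMeasure_of_one_le_norm_leadingCoeff
  rw [leadingCoeff_map_of_injective inj_castC]
  have h1 : f.leadingCoeff ≠ 0 := leadingCoeff_ne_zero.2 hf
  rw [eq_intCast, Complex.norm_intCast]
  exact_mod_cast Int.one_le_abs h1

theorem norm_coeff_le_MM (f : ℤ[X]) (δ : ℕ) (h : f.natDegree ≤ δ) (k : ℕ) :
    ‖(f.map (Int.castRingHom ℂ)).coeff k‖ ≤ 2 ^ δ * MM f := by
  have h1 := norm_coeff_le_choose_mul_mahlerMeasure k (f.map (Int.castRingHom ℂ))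
  refine h1.trans ?_
  have h2 : (f.map (Int.castRingHom ℂ)).natDegree = f.natDegree :=
    natDegree_map_eq_of_injective inj_castC f
  rw [h2]
  have h3 : ((f.natDegree.choose k : ℕ) : ℝ) ≤ 2 ^ δ := by
    have : f.natDegree.choose k ≤ 2 ^ f.natDegree := Nat.choose_le_two_pow _ _
    calc ((f.natDegree.choose k : ℕ) : ℝ) ≤ ((2 ^ f.natDegree : ℕ) : ℝ) := by exact_mod_cast this
      _ = 2 ^ f.natDegree := by push_cast; ring
      _ ≤ 2 ^ δ := pow_le_pow_right₀ (by norm_num) h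
  exact mul_le_mul_of_nonneg_right h3 (mahlerMeasure_nonneg _)

theorem MM_le (f : ℤ[X]) (δ : ℕ) (h : f.natDegree ≤ δ) (H : ℝ)
    (hH : ∀ i, |((f.coeff i : ℤ) : ℝ)| ≤ H) : MM f ≤ (δ + 1) * H := by
  have hH0 : 0 ≤ H := (abs_nonneg _).trans (hH 0)
  refine (mahlerMeasure_le_sum_norm_coeff _).trans ?_
  rw [Polynomial.sum_def]
  have h1 : (f.map (Int.castRingHom ℂ)).support ⊆ Finset.range (δ + 1) := by
    intro i hi
    rw [Finset.mem_range]
    have := le_natDegree_of_mem_supp i hi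
    rw [natDegree_map_eq_of_injective inj_castC f] at this
    omega
  refine (Finset.sum_le_sum_of_subset_of_nonneg h1 (fun i _ _ => norm_nonneg _)).trans ?_
  have h2 : ∀ i ∈ Finset.range (δ + 1), ‖(f.map (Int.castRingHom ℂ)).coeff i‖ ≤ H := by
    intro i _
    rw [coeff_map, eq_intCast, Complex.norm_intCast]
    exact_mod_cast hH i
  refine (Finset.sum_le_card_nsmul _ _ _ h2).trans (le_of_eq ?_)
  rw [Finset.card_range, nsmul_eq_mul]
  push_cast
  ring

theorem aeval_eq (θ : ℂ) (f : ℤ[X]) :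
    aeval θ f = (f.map (Int.castRingHom ℂ)).eval θ := by
  rw [aeval_def, eval₂_eq_eval_map]
  rfl

/-- coprime over the rational numbers -/
def Cop (f g : ℤ[X]) : Prop :=
  IsCoprime (f.map (Int.castRingHom ℚ)) (g.map (Int.castRingHom ℚ))

/-- the constant -/
noncomputable def KK (δ : ℕ) (R : ℝ) : ℝ := (δ + 1) * δ.factorial * (2 ^ δ) ^ δ * R ^ δ

theorem one_le_KK (δ : ℕ) (R : ℝ) (hR : 1 ≤ R) : 1 ≤ KK δ R := by
  have h1 : (1 : ℝ) ≤ (δ + 1 : ℝ) := by
    have : (0 : ℝ) ≤ δ := Nat.cast_nonneg _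
    linarith
  have h2 : (1 : ℝ) ≤ (δ.factorial : ℝ) := by
    exact_mod_cast (Nat.one_le_iff_ne_zero.2 (Nat.factorial_ne_zero δ))
  have h3 : (1 : ℝ) ≤ (2 ^ δ) ^ δ := one_le_pow₀ (one_le_pow₀ (by norm_num))
  have h4 : (1 : ℝ) ≤ R ^ δ := one_le_pow₀ hR
  rw [KK]
  have h5 := one_le_mul_of_one_le_of_one_le h1 h2
  have h6 := one_le_mul_of_one_le_of_one_le h5 h3
  exact one_le_mul_of_one_le_of_one_le h6 h4

theorem res_ineq (f g : ℤ[X]) (hf : f ≠ 0) (hg : g ≠ 0) (hcop : Cop f g) (δ : ℕ)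
    (hδ : f.natDegree + g.natDegree ≤ δ) (θ : ℂ) (R : ℝ) (hR1 : 1 ≤ R) (hR : ‖θ‖ ≤ R) :
    1 ≤ KK δ R * (MM f ^ g.natDegree * MM g ^ f.natDegree) * max ‖aeval θ f‖ ‖aeval θ g‖ := by
  have hMf := one_le_MM hf
  have hMg := one_le_MM hg
  have hK := one_le_KK δ R hR1
  rcases Nat.eq_zero_or_pos (f.natDegree + g.natDegree) with h0 | hpos
  · have hf0 : f.natDegree = 0 := by omega
    have hg0 : g.natDegree = 0 := by omega
    obtain ⟨a, rfl⟩ := natDegree_eq_zero.1 hf0
    have ha : a ≠ 0 := by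
      rintro rfl
      simp at hf
    have h1 : (1 : ℝ) ≤ ‖aeval θ (C a)‖ := by
      rw [aeval_C, algebraMap_int_eq, eq_intCast, Complex.norm_intCast]
      exact_mod_cast Int.one_le_abs ha
    rw [hf0, hg0, pow_zero, pow_zero, mul_one, mul_one]
    calc (1 : ℝ) = 1 * 1 := by ring
      _ ≤ KK δ R * max ‖aeval θ (C a)‖ ‖aeval θ g‖ :=
        mul_le_mul hK (h1.trans (le_max_left _ _)) zero_le_one (by linarith)
  · set m := f.natDegree with hm
    set n := g.natDegree with hn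
    -- the resultant is a nonzero integer
    have hres : resultant f g m n ≠ 0 := by
      have h1 := resultant_ne_zero (f.map (Int.castRingHom ℚ)) (g.map (Int.castRingHom ℚ)) hcop
      have h2 : (f.map (Int.castRingHom ℚ)).natDegree = m :=
        natDegree_map_eq_of_injective (Int.castRingHom ℚ).injective_int f
      have h3 : (g.map (Int.castRingHom ℚ)).natDegree = n :=
        natDegree_map_eq_of_injective (Int.castRingHom ℚ).injective_int g
      rw [h2, h3, resultant_map_map] at h1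
      intro h4
      rw [h4] at h1
      simp at h1
    have h1 : (1 : ℝ) ≤ ‖resultant (f.map (Int.castRingHom ℂ)) (g.map (Int.castRingHom ℂ)) m n‖ := by
      rw [resultant_map_map, eq_intCast, Complex.norm_intCast]
      exact_mod_cast Int.one_le_abs hres
    have h2 := norm_resultant_le (f.map (Int.castRingHom ℂ)) (g.map (Int.castRingHom ℂ)) m n
      (le_of_eq (natDegree_map_eq_of_injective inj_castC f))
      (le_of_eq (natDegree_map_eq_of_injective inj_castC g)) hpos (2 ^ δ * MM f) (2 ^ δ * MM g)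
      (one_le_mul_of_one_le_of_one_le (one_le_pow₀ (by norm_num)) hMf)
      (one_le_mul_of_one_le_of_one_le (one_le_pow₀ (by norm_num)) hMg)
      (norm_coeff_le_MM f δ (by omega)) (norm_coeff_le_MM g δ (by omega)) θ R hR1 hR
    rw [← aeval_eq, ← aeval_eq] at h2
    refine (h1.trans h2).trans ?_
    have hM0 : 0 ≤ max ‖aeval θ f‖ ‖aeval θ g‖ := le_max_of_le_left (norm_nonneg _)
    refine mul_le_mul_of_nonneg_right ?_ hM0
    have h3 : ((m : ℝ) + n) ≤ δ + 1 := by
      have : ((m + n : ℕ) : ℝ) ≤ (δ : ℝ) := by exact_mod_cast hδ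
      push_cast at this
      linarith
    have h4 : ((m + n).factorial : ℝ) ≤ δ.factorial := by
      exact_mod_cast Nat.factorial_le hδ
    have h5 : R ^ (m + n) ≤ R ^ δ := pow_le_pow_right₀ hR1 hδ
    have h6 : (2 ^ δ * MM g) ^ m * (2 ^ δ * MM f) ^ n ≤
        (2 ^ δ) ^ δ * (MM f ^ n * MM g ^ m) := by
      have h7 : ((2 : ℝ) ^ δ) ^ (m + n) ≤ (2 ^ δ) ^ δ :=
        pow_le_pow_right₀ (one_le_pow₀ (by norm_num)) hδ
      calc (2 ^ δ * MM g) ^ m * (2 ^ δ * MM f) ^ n
          = (2 ^ δ) ^ (m + n) * (MM f ^ n * MM g ^ m) := by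
            rw [mul_pow, mul_pow, pow_add]; ring
        _ ≤ (2 ^ δ) ^ δ * (MM f ^ n * MM g ^ m) :=
            mul_le_mul_of_nonneg_right h7 (by positivity)
    calc ((m : ℝ) + n) * (m + n).factorial * ((2 ^ δ * MM g) ^ m * (2 ^ δ * MM f) ^ n) *
          R ^ (m + n)
        ≤ (δ + 1) * δ.factorial * ((2 ^ δ) ^ δ * (MM f ^ n * MM g ^ m)) * R ^ δ := by
          gcongr
      _ = KK δ R * (MM f ^ n * MM g ^ m) := by
          rw [KK]; ring

end Helper27.GP
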