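import Pool.Agent.Helper27.GP.GelA

/-! Gelfond criterion, part B: a small coprime factor that is a power of an irreducible. -/

namespace Helper27.GP

open Polynomial

theorem cop_symm {f g : ℤ[X]} (h : Cop f g) : Cop g f := IsCoprime.symm h

theorem exists_unitary (A : ℤ[X]) (hA : A ≠ 0) (θ : ℂ) (e η : ℝ) (he0 : 0 < e) (he1 : e ≤ 1)
    (hη : ‖aeval θ A‖ ≤ η) (hη2 : η < e ^ 3)
    (hres : ∀ B C, A = B * C → Cop B C → e ≤ max ‖aeval θ B‖ ‖aeval θ C‖) :
    ∃ B, B ∣ A ∧ ‖aeval θ B‖ ≤ η / e ∧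
      (∀ B1 B2, B = B1 * B2 → Cop B1 B2 → B1.natDegree = 0 ∨ B2.natDegree = 0) ∧
      B.natDegree ≠ 0 := by
  classical
  have he3 : e ^ 3 ≤ e := by
    calc e ^ 3 ≤ e ^ 1 := pow_le_pow_of_le_one he0.le he1 (by norm_num)
      _ = e := pow_one e
  let P : ℕ → Prop := fun d => ∃ B C, A = B * C ∧ Cop B C ∧ ‖aeval θ B‖ < e ∧ B.natDegree = d
  have hP : ∃ d, P d := by
    refine ⟨A.natDegree, A, 1, by ring, ?_, by linarith, rfl⟩
    rw [Cop, Polynomial.map_one]
    exact isCoprime_one_right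
  obtain ⟨B, C, hBC, hcop, hsmall, hdeg⟩ := Nat.find_spec hP
  have hmin : ∀ d, d < Nat.find hP → ¬ P d := fun d hd => Nat.find_min hP hd
  rw [← hdeg] at hmin
  have hB0 : B ≠ 0 := by
    rintro rfl
    rw [zero_mul] at hBC
    exact hA hBC
  have hC : e ≤ ‖aeval θ C‖ := by
    rcases le_max_iff.1 (hres B C hBC hcop) with h | h
    · linarith
    · exact h
  have hCpos : 0 < ‖aeval θ C‖ := he0.trans_le hC
  have hη0 : 0 ≤ η := (norm_nonneg _).trans hη
  have hB1 : ‖aeval θ B‖ ≤ η / e := by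
    have h1 : ‖aeval θ B‖ * ‖aeval θ C‖ ≤ η := by
      rw [← norm_mul, ← map_mul, ← hBC]
      exact hη
    rw [le_div_iff₀ he0]
    exact (mul_le_mul_of_nonneg_left hC (norm_nonneg _)).trans h1
  refine ⟨B, ⟨C, hBC⟩, hB1, ?_, ?_⟩
  · intro B1 B2 hB12 hcop12
    by_contra hcon
    push Not at hcon
    obtain ⟨h1, h2⟩ := hcon
    have hB10 : B1 ≠ 0 := by
      rintro rfl
      simp at h1
    have hB20 : B2 ≠ 0 := by
      rintro rfl
      simp at h2
    have hd : B.natDegree = B1.natDegree + B2.natDegree := by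
      rw [hB12, natDegree_mul hB10 hB20]
    have hcopBC : IsCoprime ((B1.map (Int.castRingHom ℚ)) * (B2.map (Int.castRingHom ℚ)))
        (C.map (Int.castRingHom ℚ)) := by
      rw [← Polynomial.map_mul, ← hB12]
      exact hcop
    have h3 : e ≤ ‖aeval θ B1‖ := by
      by_contra hlt
      push Not at hlt
      refine hmin B1.natDegree (by omega) ⟨B1, B2 * C, by rw [hBC, hB12]; ring, ?_, hlt, rfl⟩
      rw [Cop, Polynomial.map_mul]
      exact IsCoprime.mul_right hcop12 hcopBC.of_mul_left_left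
    have h4 : e ≤ ‖aeval θ B2‖ := by
      by_contra hlt
      push Not at hlt
      refine hmin B2.natDegree (by omega) ⟨B2, B1 * C, by rw [hBC, hB12]; ring, ?_, hlt, rfl⟩
      rw [Cop, Polynomial.map_mul]
      exact IsCoprime.mul_right (cop_symm hcop12) hcopBC.of_mul_left_right
    have h5 : e * e ≤ ‖aeval θ B‖ := by
      rw [hB12, map_mul, norm_mul]
      exact mul_le_mul h3 h4 he0.le (norm_nonneg _)
    have h6 : η / e < e * e := by
      rw [div_lt_iff₀ he0]
      calc η < e ^ 3 := hη2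
        _ = e * e * e := by ring
    linarith
  · intro h0
    obtain ⟨a, rfl⟩ := natDegree_eq_zero.1 h0
    have ha : a ≠ 0 := by
      rintro rfl
      simp at hB0
    rw [aeval_C, algebraMap_int_eq, eq_intCast, Complex.norm_intCast] at hsmall
    have : (1 : ℝ) ≤ |(a : ℝ)| := by exact_mod_cast Int.one_le_abs ha
    linarith

theorem prim_of_irr {Q : ℤ[X]} (hQ : Irreducible Q) (hd : Q.natDegree ≠ 0) : Q.IsPrimitive :=
  hQ.isPrimitive hd

theorem isUnit_map_C {c : ℤ} (hc : c ≠ 0) : IsUnit ((C c : ℤ[X]).map (Int.castRingHom ℚ)) := by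
  rw [map_C, isUnit_C]
  rw [eq_intCast]
  exact isUnit_iff_ne_zero.2 (by exact_mod_cast hc)

/-- an irreducible polynomial that divides `B` over `ℚ` divides it over `ℤ` -/
theorem dvd_of_map_dvd {Q B : ℤ[X]} (hQ : Q.IsPrimitive) (hB : B ≠ 0)
    (h : Q.map (Int.castRingHom ℚ) ∣ B.map (Int.castRingHom ℚ)) : Q ∣ B := by
  have h1 : B = C B.content * B.primPart := B.eq_C_content_mul_primPart
  have hc : B.content ≠ 0 := by
    rwa [Ne, content_eq_zero_iff]
  rw [h1, Polynomial.map_mul] at h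
  have h2 : Q.map (Int.castRingHom ℚ) ∣ B.primPart.map (Int.castRingHom ℚ) :=
    ((isUnit_map_C hc).dvd_mul_left).1 h
  have h3 := (IsPrimitive.Int.dvd_iff_map_cast_dvd_map_cast Q B.primPart hQ).2 h2
  rw [h1]
  exact h3.mul_left _

theorem exists_irr_pow (B : ℤ[X]) (hB : B.natDegree ≠ 0)
    (hind : ∀ B1 B2, B = B1 * B2 → Cop B1 B2 → B1.natDegree = 0 ∨ B2.natDegree = 0) :
    ∃ (Q : ℤ[X]) (k : ℕ) (c : ℤ), Irreducible Q ∧ Q.natDegree ≠ 0 ∧ 0 < k ∧ c ≠ 0 ∧
      B = C c * Q ^ k := by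
  have hB0 : B ≠ 0 := by
    rintro rfl
    simp at hB
  have hpp : ¬ IsUnit B.primPart := by
    intro h
    have := natDegree_eq_zero_of_isUnit h
    rw [natDegree_primPart] at this
    exact hB this
  have hpp0 : B.primPart ≠ 0 := B.isPrimitive_primPart.ne_zero
  obtain ⟨Q, hQ, hQB⟩ := WfDvdMonoid.exists_irreducible_factor hpp hpp0
  have hQprim : Q.IsPrimitive := isPrimitive_of_dvd B.isPrimitive_primPart hQB
  have hQd : Q.natDegree ≠ 0 := by
    intro h
    obtain ⟨a, rfl⟩ := natDegree_eq_zero.1 h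
    apply hQ.not_isUnit
    rw [isUnit_C]
    exact hQprim a dvd_rfl
  have hQB' : Q ∣ B := hQB.trans B.primPart_dvd
  have hfin : FiniteMultiplicity Q B := FiniteMultiplicity.of_not_isUnit hQ.not_isUnit hB0
  obtain ⟨B2, hB2, hnd⟩ := hfin.exists_eq_pow_mul_and_not_dvd
  set k := multiplicity Q B with hk
  have hk0 : 0 < k := by
    rw [Nat.pos_iff_ne_zero]
    intro h0
    rw [h0, pow_zero, one_mul] at hB2
    rw [← hB2] at hnd
    exact hnd hQB'
  have hB20 : B2 ≠ 0 := by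
    rintro rfl
    rw [mul_zero] at hB2
    exact hB0 hB2
  have hirr : Irreducible (Q.map (Int.castRingHom ℚ)) :=
    (IsPrimitive.Int.irreducible_iff_irreducible_map_cast hQprim).1 hQ
  have hcop : Cop (Q ^ k) B2 := by
    rw [Cop, Polynomial.map_pow]
    apply IsCoprime.pow_left
    rw [hirr.coprime_iff_not_dvd]
    intro h
    exact hnd (dvd_of_map_dvd hQprim hB20 h)
  rcases hind _ _ hB2 hcop with h | h
  · exfalso
    rw [natDegree_pow] at h
    rcases Nat.mul_eq_zero.1 h with h | h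
    · omega
    · exact hQd h
  · obtain ⟨c, rfl⟩ := natDegree_eq_zero.1 h
    have hc : c ≠ 0 := by
      rintro rfl
      simp at hB20
    exact ⟨Q, k, c, hQ, hQd, hk0, hc, by rw [hB2]; ring⟩

theorem assoc_of_not_cop {Q Q' : ℤ[X]} {k k' : ℕ} {c c' : ℤ} (hQ : Irreducible Q)
    (hQd : Q.natDegree ≠ 0) (hQ' : Irreducible Q') (hQd' : Q'.natDegree ≠ 0) (hc : c ≠ 0)
    (hc' : c' ≠ 0) (h : ¬ Cop (C c * Q ^ k) (C c' * Q' ^ k')) : Associated Q Q' := by
  have hQp := prim_of_irr hQ hQd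
  have hQp' := prim_of_irr hQ' hQd'
  by_contra hcon
  apply h
  rw [Cop, Polynomial.map_mul, Polynomial.map_mul, isCoprime_mul_unit_left_left (isUnit_map_C hc),
    isCoprime_mul_unit_left_right (isUnit_map_C hc'), Polynomial.map_pow, Polynomial.map_pow]
  apply IsCoprime.pow
  have hirr : Irreducible (Q.map (Int.castRingHom ℚ)) :=
    (IsPrimitive.Int.irreducible_iff_irreducible_map_cast hQp).1 hQ
  rw [hirr.coprime_iff_not_dvd]
  intro hd
  have h1 := dvd_of_map_dvd hQp hQ'.ne_zero hd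
  exact hcon (hQ.associated_of_dvd hQ' h1)

end Helper27.GP
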