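import Mathlib

/-! Upper bound for a resultant in terms of the values at a point. -/

namespace Helper27.GP

open Polynomial Matrix

/-- a determinant is bounded by `N!` times the product of bounds of the columns -/
theorem norm_det_le {N : ℕ} (A : Matrix (Fin N) (Fin N) ℂ) (c : Fin N → ℝ)
    (h : ∀ i j, ‖A i j‖ ≤ c j) : ‖A.det‖ ≤ N.factorial * ∏ j, c j := by
  rw [← Matrix.det_transpose, Matrix.det_apply]
  refine (norm_sum_le _ _).trans ?_
  have h1 : ∀ σ ∈ (Finset.univ : Finset (Equiv.Perm (Fin N))),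
      ‖Equiv.Perm.sign σ • ∏ i, A.transpose (σ i) i‖ ≤ ∏ j, c j := by
    intro σ _
    have h2 : ‖Equiv.Perm.sign σ • ∏ i, A.transpose (σ i) i‖ = ∏ i, ‖A i (σ i)‖ := by
      rw [Units.smul_def, zsmul_eq_mul, norm_mul, norm_prod]
      have : ‖((Equiv.Perm.sign σ : ℤ) : ℂ)‖ = 1 := by
        rcases Int.units_eq_one_or (Equiv.Perm.sign σ) with h | h <;> simp [h]
      rw [this, one_mul]
      rfl
    rw [h2, ← Equiv.prod_comp σ c]
    exact Finset.prod_le_prod (fun i _ => norm_nonneg _) (fun i _ => h i (σ i))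
  refine (Finset.sum_le_sum h1).trans ?_
  rw [Finset.sum_const, Finset.card_univ, Fintype.card_perm, Fintype.card_fin, nsmul_eq_mul]

theorem sum_shift (N j n : ℕ) (hjn : j + n < N) (a : ℕ → ℂ) (z : ℂ) :
    ∑ i ∈ Finset.range N, z ^ i * (if i ∈ Set.Icc j (j + n) then a (i - j) else 0) =
      z ^ j * ∑ k ∈ Finset.range (n + 1), a k * z ^ k := by
  have h1 : ∑ i ∈ Finset.range N, z ^ i * (if i ∈ Set.Icc j (j + n) then a (i - j) else 0) =
      ∑ i ∈ Finset.Ico j (j + n + 1), z ^ i * a (i - j) := by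
    rw [← Finset.sum_subset (s₁ := Finset.Ico j (j + n + 1)) (s₂ := Finset.range N)]
    · refine Finset.sum_congr rfl fun i hi => ?_
      rw [Finset.mem_Ico] at hi
      rw [if_pos (Set.mem_Icc.2 ⟨hi.1, by omega⟩)]
    · intro i hi
      rw [Finset.mem_Ico] at hi
      rw [Finset.mem_range]
      omega
    · intro i _ hi
      rw [Finset.mem_Ico] at hi
      rw [if_neg, mul_zero]
      intro h
      rw [Set.mem_Icc] at h
      exact hi ⟨h.1, by omega⟩
  rw [h1, Finset.sum_Ico_eq_sum_range, Finset.mul_sum]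
  have h2 : j + n + 1 - j = n + 1 := by omega
  rw [h2]
  refine Finset.sum_congr rfl fun k _ => ?_
  rw [Nat.add_sub_cancel_left, pow_add]
  ring

/-- the row vector of powers times the Sylvester matrix -/
theorem vecMul_sylvester (F G : ℂ[X]) (m n : ℕ) (hF : F.natDegree ≤ m) (hG : G.natDegree ≤ n)
    (z : ℂ) (j : Fin (m + n)) :
    ((fun i : Fin (m + n) => z ^ (i : ℕ)) ᵥ* (sylvester F G m n)) j =
      Fin.addCases (fun j₁ : Fin m => z ^ (j₁ : ℕ) * G.eval z)
        (fun j₁ : Fin n => z ^ (j₁ : ℕ) * F.eval z) j := by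
  induction j using Fin.addCases with
  | left j =>
    rw [Fin.addCases_left, Matrix.vecMul, dotProduct]
    have h1 : ∀ i : Fin (m + n), z ^ (i : ℕ) * sylvester F G m n i (Fin.castAdd n j) =
        (fun i : ℕ => z ^ i * (if i ∈ Set.Icc (j : ℕ) (j + n) then G.coeff (i - j) else 0)) i := by
      intro i
      rw [sylvester, Matrix.of_apply, Fin.addCases_left]
    rw [Finset.sum_congr rfl (fun i _ => h1 i), Fin.sum_univ_eq_sum_range
      (fun i : ℕ => z ^ i * (if i ∈ Set.Icc (j : ℕ) (j + n) then G.coeff (i - j) else 0)),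
      sum_shift (m + n) j n (by omega), eval_eq_sum_range' (Nat.lt_succ_of_le hG)]
  | right j =>
    rw [Fin.addCases_right, Matrix.vecMul, dotProduct]
    have h1 : ∀ i : Fin (m + n), z ^ (i : ℕ) * sylvester F G m n i (Fin.natAdd m j) =
        (fun i : ℕ => z ^ i * (if i ∈ Set.Icc (j : ℕ) (j + m) then F.coeff (i - j) else 0)) i := by
      intro i
      rw [sylvester, Matrix.of_apply, Fin.addCases_right]
    rw [Finset.sum_congr rfl (fun i _ => h1 i), Fin.sum_univ_eq_sum_range
      (fun i : ℕ => z ^ i * (if i ∈ Set.Icc (j : ℕ) (j + m) then F.coeff (i - j) else 0)),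
      sum_shift (m + n) j m (by omega), eval_eq_sum_range' (Nat.lt_succ_of_le hF)]

/-- entries of the Sylvester matrix are bounded by column bounds -/
theorem norm_sylvester_le (F G : ℂ[X]) (m n : ℕ) (HF HG : ℝ) (hHF : 0 ≤ HF) (hHG : 0 ≤ HG)
    (h1 : ∀ k, ‖F.coeff k‖ ≤ HF) (h2 : ∀ k, ‖G.coeff k‖ ≤ HG) (i j : Fin (m + n)) :
    ‖sylvester F G m n i j‖ ≤ Fin.addCases (fun _ : Fin m => HG) (fun _ : Fin n => HF) j := by
  induction j using Fin.addCases with
  | left j =>
    rw [sylvester, Matrix.of_apply, Fin.addCases_left, Fin.addCases_left]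
    split_ifs
    · exact h2 _
    · simpa using hHG
  | right j =>
    rw [sylvester, Matrix.of_apply, Fin.addCases_right, Fin.addCases_right]
    split_ifs
    · exact h1 _
    · simpa using hHF

theorem norm_adjugate_le (F G : ℂ[X]) (m n : ℕ) (HF HG : ℝ) (hHF : 1 ≤ HF) (hHG : 1 ≤ HG)
    (h1 : ∀ k, ‖F.coeff k‖ ≤ HF) (h2 : ∀ k, ‖G.coeff k‖ ≤ HG) (i j : Fin (m + n)) :
    ‖(sylvester F G m n).adjugate i j‖ ≤ (m + n).factorial * (HG ^ m * HF ^ n) := by
  rw [Matrix.adjugate_apply]
  have h3 := norm_det_le ((sylvester F G m n).updateRow j (Pi.single i 1))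
    (fun j => Fin.addCases (fun _ : Fin m => HG) (fun _ : Fin n => HF) j) (by
      intro k l
      by_cases hk : k = j
      · subst hk
        rw [Matrix.updateRow_self]
        have h4 : ‖(Pi.single i (1 : ℂ) : Fin (m + n) → ℂ) l‖ ≤ 1 := by
          by_cases hl : l = i
          · subst hl; simp
          · rw [Pi.single_eq_of_ne hl]; simp
        refine h4.trans ?_
        induction l using Fin.addCases with
        | left l => rw [Fin.addCases_left]; exact hHG
        | right l => rw [Fin.addCases_right]; exact hHF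
      · rw [Matrix.updateRow_ne hk]
        exact norm_sylvester_le F G m n HF HG (by linarith) (by linarith) h1 h2 k l)
  refine h3.trans (le_of_eq ?_)
  rw [Fin.prod_univ_add]
  simp

/-- the resultant is bounded by the values at a point -/
theorem norm_resultant_le (F G : ℂ[X]) (m n : ℕ) (hF : F.natDegree ≤ m) (hG : G.natDegree ≤ n)
    (hmn : 0 < m + n) (HF HG : ℝ) (hHF : 1 ≤ HF) (hHG : 1 ≤ HG)
    (h1 : ∀ k, ‖F.coeff k‖ ≤ HF) (h2 : ∀ k, ‖G.coeff k‖ ≤ HG) (z : ℂ) (R : ℝ) (hR1 : 1 ≤ R)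
    (hR : ‖z‖ ≤ R) :
    ‖resultant F G m n‖ ≤ (m + n) * (m + n).factorial * (HG ^ m * HF ^ n) * R ^ (m + n) *
      max ‖F.eval z‖ ‖G.eval z‖ := by
  set S := sylvester F G m n with hS
  set r : Fin (m + n) → ℂ := fun i => z ^ (i : ℕ) with hr
  set i₀ : Fin (m + n) := ⟨0, hmn⟩ with hi₀
  have h3 : resultant F G m n = ∑ j, (r ᵥ* S) j * S.adjugate j i₀ := by
    have h4 : (r ᵥ* (S * S.adjugate)) i₀ = resultant F G m n := by
      rw [Matrix.mul_adjugate, Matrix.vecMul_smul, Matrix.vecMul_one]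
      simp [hr, hi₀, resultant, hS]
    rw [← h4, ← Matrix.vecMul_vecMul]
    rfl
  rw [h3]
  refine (norm_sum_le _ _).trans ?_
  set M := max ‖F.eval z‖ ‖G.eval z‖ with hM
  have hM0 : 0 ≤ M := le_max_of_le_left (norm_nonneg _)
  have hRpow : ∀ k : ℕ, k ≤ m + n → ‖z‖ ^ k ≤ R ^ (m + n) := by
    intro k hk
    calc ‖z‖ ^ k ≤ R ^ k := pow_le_pow_left₀ (norm_nonneg _) hR k
      _ ≤ R ^ (m + n) := pow_le_pow_right₀ hR1 hk
  have h5 : ∀ j : Fin (m + n), ‖(r ᵥ* S) j * S.adjugate j i₀‖ ≤
      R ^ (m + n) * M * ((m + n).factorial * (HG ^ m * HF ^ n)) := by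
    intro j
    rw [norm_mul]
    refine mul_le_mul ?_ (norm_adjugate_le F G m n HF HG hHF hHG h1 h2 j i₀) (norm_nonneg _)
      (by positivity)
    rw [hr, hS, vecMul_sylvester F G m n hF hG z j]
    induction j using Fin.addCases with
    | left j =>
      rw [Fin.addCases_left, norm_mul, norm_pow]
      exact mul_le_mul (hRpow _ (by omega)) (le_max_right _ _) (norm_nonneg _) (by positivity)
    | right j =>
      rw [Fin.addCases_right, norm_mul, norm_pow]
      exact mul_le_mul (hRpow _ (by omega)) (le_max_left _ _) (norm_nonneg _) (by positivity)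
  refine (Finset.sum_le_sum (fun j _ => h5 j)).trans (le_of_eq ?_)
  rw [Finset.sum_const, Finset.card_univ, Fintype.card_fin, nsmul_eq_mul]
  push_cast
  ring

end Helper27.GP
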